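import Mathlib

namespace Pool.Agent.Results.MP_2432f5_co.NoMaximal

/-- The image of a pattern under the substitution `h` of its variables. A pattern is a word over
`S ⊕ V`: the letters `Sum.inl a` are constants, the letters `Sum.inr x` are variables. -/
def subst {S V : Type} (h : V → List S) (p : List (S ⊕ V)) : List S :=
  p.flatMap (Sum.elim (fun a => [a]) h)

/-- `w` encounters `p`. -/
def Encounters {S V : Type} (p : List (S ⊕ V)) (w : List S) : Prop :=
  ∃ h : V → List S, (∀ x, h x ≠ []) ∧ subst h p <:+: w

/-- `u` is maximal `p`-free. -/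
def MaximalFree {S V : Type} (p : List (S ⊕ V)) (u : List S) : Prop :=
  ¬ Encounters p u ∧ ∀ a b : S, Encounters p (a :: (u ++ [b]))

/-- The pattern `p` is avoidable: there are arbitrarily long `p`-free words. -/
def Avoidable {S V : Type} (p : List (S ⊕ V)) : Prop :=
  ∀ n : ℕ, ∃ w : List S, w.length = n ∧ ¬ Encounters p w

lemma no_maximal {S V : Type} [Nontrivial S] (p : List (S ⊕ V)) (a c : S)
    (ha : p.head? = some (Sum.inl a)) (hc : p.getLast? = some (Sum.inl c)) (u : List S) :
    ¬ MaximalFree p u := by
  rintro ⟨hu, hmax⟩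
  obtain ⟨b, hb⟩ := exists_ne a
  obtain ⟨d, hd⟩ := exists_ne c
  obtain ⟨h, hne, s, t, hst⟩ := hmax b d
  apply hu
  refine ⟨h, hne, ?_⟩
  -- the image starts with `a` and ends with `c`
  obtain ⟨p', rfl⟩ : ∃ p', p = Sum.inl a :: p' := by
    cases p with
    | nil => simp at ha
    | cons x p' =>
      simp only [List.head?_cons, Option.some.injEq] at ha
      exact ⟨p', by rw [ha]⟩
  obtain ⟨q, hq⟩ : ∃ q, Sum.inl a :: p' = q ++ [Sum.inl c] := by
    rw [List.getLast?_eq_some_iff] at hc
    exact hc
  have e1 : subst h (Sum.inl a :: p') = a :: subst h p' := by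
    simp [subst]
  have e2 : subst h (Sum.inl a :: p') = subst h q ++ [c] := by
    rw [hq]
    simp [subst]
  cases s with
  | nil =>
    rw [e1] at hst
    simp only [List.nil_append, List.cons_append, List.cons.injEq] at hst
    exact absurd hst.1.symm hb
  | cons x s' =>
    rcases List.eq_nil_or_concat t with rfl | ⟨t', y, rfl⟩
    · rw [e2] at hst
      have h1 := congrArg List.getLast? hst
      simp only [List.append_nil, List.cons_append] at h1
      rw [show x :: (s' ++ (subst h q ++ [c])) = (x :: (s' ++ subst h q)) ++ [c] by simp,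
        show b :: (u ++ [d]) = (b :: u) ++ [d] by simp, List.getLast?_concat,
        List.getLast?_concat] at h1
      exact absurd (Option.some.inj h1).symm hd
    · refine ⟨s', t', ?_⟩
      have h2 : s' ++ subst h (Sum.inl a :: p') ++ t' ++ [y] = u ++ [d] := by
        have := congrArg List.tail hst
        simpa using this
      exact (List.append_inj' h2 rfl).1

/-- the pattern `a x x a` over the alphabet of two letters with one variable `x` -/
def axxa : List (Bool ⊕ Unit) := [Sum.inl true, Sum.inr (), Sum.inr (), Sum.inl true]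

lemma avoid : Avoidable axxa := by
  intro n
  refine ⟨List.replicate n false, List.length_replicate, ?_⟩
  rintro ⟨h, _, hin⟩
  have h1 : true ∈ subst h axxa := by simp [subst, axxa]
  have h2 := List.eq_of_mem_replicate (hin.subset h1)
  exact absurd h2 (by decide)

theorem result :
    (∀ (S V : Type) [Finite S] [Nontrivial S] (p : List (S ⊕ V)) (a c : S),
      p.head? = some (Sum.inl a) → p.getLast? = some (Sum.inl c) → ∀ w : List S,
        ¬ Encounters p w → ¬ ∃ u : List S, MaximalFree p u ∧ w <:+: u) ∧
    (∃ (S V : Type) (_ : Finite S) (p : List (S ⊕ V)) (w : List S), Avoidable p ∧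
      (∃ x, Sum.inr x ∈ p) ∧ ¬ Encounters p w ∧ ¬ ∃ u : List S, MaximalFree p u ∧ w <:+: u) := by
  refine ⟨fun S V _ _ p a c ha hc w _ => ?_, ?_⟩
  · rintro ⟨u, hu, _⟩
    exact no_maximal p a c ha hc u hu
  · obtain ⟨w, -, hw⟩ := avoid 1
    refine ⟨Bool, Unit, inferInstance, axxa, w, avoid, ⟨(), by simp [axxa]⟩, hw, ?_⟩
    rintro ⟨u, hu, _⟩
    exact no_maximal axxa true true rfl rfl u hu

end Pool.Agent.Results.MP_2432f5_co.NoMaximal
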